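import Pool.Agent.H.MP_e721cf_gt.B

open UpperHalfPlane

namespace Pool.Agent.Results.MP_e721cf_gt.Yes

/-- `f` agrees on each piece `{x | P x = i}` of a finite partition with an isometry of the plane -/
def PW {X : Set ℍ} (f : Equiv.Perm X) : Prop :=
  ∃ (n : ℕ) (P : X → Fin n) (g : Fin n → ℍ ≃ᵢ ℍ), ∀ x : X, (f x : ℍ) = g (P x) x

theorem result : ∃ X : Set ℍ, Bornology.IsBounded X ∧ (interior X).Nonempty ∧
    ∃ φ ψ : Equiv.Perm X, PW φ ∧ PW ψ ∧ Function.Injective (FreeGroup.lift ![φ, ψ]) ∧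
      ∀ g ∈ Subgroup.closure {φ, ψ}, ∀ x : X, g x = x → g = 1 := by
  open H.MP_e721cf_gt ModularGroup in
  classical
  obtain ⟨Z, c, d, S, hS, z1, z2, z3, z4⟩ := tree
  obtain ⟨τ, ht, τ0, τ1⟩ : ∃ τ : ℝ, ¬ IsAlgebraic ℚ (τ : ℂ) ∧ 0 < τ ∧ τ < 1 / 4 :=
    (Set.Countable.dense_compl ℝ ((Algebraic.countable ℚ ℂ).preimage_of_injOn
      Complex.ofReal_injective.injOn)).exists_between (by norm_num)
  let B : Set ℍ := {z | |z.re| < 1 / 4 ∧ 2 < z.im ∧ z.im < 3}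
  have fo : ∀ z : ℍ, |z.re| < 1 / 2 → 2 < z.im → z ∈ fdo := fun z h1 h2 => ⟨by
    rw [Complex.normSq_apply, coe_re, coe_im]; nlinarith [mul_self_nonneg z.re], h1⟩
  let T : ℍ ≃ᵢ ℍ := ⟨AddAction.toPerm τ, isometry_real_vadd τ⟩
  have hT : ∀ x ∈ Z ∪ B, x ∉ Z → T x ∈ Z := fun x hx h => by
    obtain ⟨b1, b2, b3⟩ := hx.resolve_left h
    have e : T x = τ +ᵥ x := rfl
    rw [e]
    refine z2 _ (fo _ ?_ (by rwa [vadd_im])) (by rw [vadd_im]; linarith) fun ha => h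
      (z2 _ (fo _ (by linarith) b2) (by linarith) fun hb => ht ?_)
    · rw [vadd_re, abs_lt]; constructor <;> linarith [abs_lt.1 b1]
    · rw [coe_vadd] at ha
      simpa using ha.sub hb
  let π : ↥(Z ∪ B) → ℍ := fun x => if x.1 ∈ Z then x else T x
  have hπ : ∀ x, π x ∈ Z := fun x => by
    by_cases h : x.1 ∈ Z
    · simpa only [π, if_pos h] using h
    · simpa only [π, if_neg h] using hT _ x.2 h
  obtain ⟨e⟩ : Nonempty ((Fin 2 × Bool) × Bool ↪ Fin 10) :=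
    Function.Embedding.nonempty_of_card_le (by simp)
  let C : ↥(Z ∪ B) → Fin 2 × Bool → ↥(Z ∪ B) := fun x s =>
    ⟨c (π x) (e (s, decide (x.1 ∈ Z))), .inl (z3 _ (hπ x) _).1⟩
  obtain ⟨φ, h1, h2⟩ := free_act C (fun x => d (π x)) (fun x s => by
    have := z3 _ (hπ x) (e (s, decide (x.1 ∈ Z)))
    simp only [π, C] at this ⊢
    rw [if_pos this.1]; exact this.2.1) (fun x s y t h => by
    obtain ⟨a, b⟩ := z4 _ (hπ x) _ (hπ y) _ _ (congrArg Subtype.val h)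
    obtain ⟨b1, b2⟩ := Prod.mk.inj (e.injective b)
    refine ⟨Subtype.ext ?_, b1⟩
    rw [decide_eq_decide] at b2
    by_cases hx : x.1 ∈ Z
    · simpa only [π, if_pos hx, if_pos (b2.1 hx)] using a
    · simp only [π, if_neg hx, if_neg (b2.not.1 hx)] at a
      exact T.injective a)
  have hC : ∀ x s, ∃ g ∈ S ∪ (fun g => T.trans g) '' S, (C x s : ℍ) = g x := fun x s => by
    obtain ⟨g, hg, h⟩ := (z3 _ (hπ x) (e (s, decide (x.1 ∈ Z)))).2.2
    by_cases hx : x.1 ∈ Z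
    · exact ⟨g, .inl hg, h.trans (by simp only [π, if_pos hx])⟩
    · exact ⟨_, .inr ⟨g, hg, rfl⟩, h.trans (by simp only [π, if_neg hx]; rfl)⟩
  have hf := hS.union (hS.image fun g => T.trans g)
  generalize S ∪ (fun g => T.trans g) '' S = S' at hC hf
  have pw : ∀ i, PW (φ i) := fun i => by
    obtain ⟨n, g, -, hg⟩ := (hf.union (hf.image IsometryEquiv.symm)).fin_param
    have : ∀ x : ↥(Z ∪ B), ∃ k, (φ i x : ℍ) = g k x := fun x => by
      rcases h1 i x with ⟨s, h⟩ | ⟨s, h⟩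
      · obtain ⟨u, hu, h'⟩ := hC x s
        obtain ⟨k, rfl⟩ : u ∈ Set.range g := hg ▸ .inl hu
        exact ⟨k, h ▸ h'⟩
      · obtain ⟨u, hu, h'⟩ := hC (φ i x) s
        obtain ⟨k, hk⟩ : u.symm ∈ Set.range g := hg ▸ .inr ⟨u, hu, rfl⟩
        exact ⟨k, by rw [hk, IsometryEquiv.eq_symm_apply, ← h', ← h]⟩
    choose P hP using this
    exact ⟨n, P, g, hP⟩
  let x0 : ℍ := ⟨⟨0, 5 / 2⟩, by norm_num⟩
  have hx0 : x0 ∈ B := ⟨by simp [x0, ← coe_re], by norm_num [x0, ← coe_im], by norm_num [x0, ← coe_im]⟩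
  have eφ : ![φ 0, φ 1] = φ := by ext1 i; fin_cases i <;> rfl
  refine ⟨Z ∪ B, (isCompact_truncatedFundamentalDomain 22).isBounded.subset ?_,
    ⟨x0, interior_maximal Set.subset_union_right ?_ hx0⟩, φ 0, φ 1, pw 0, pw 1, ?_, fun g hg x hx => ?_⟩
  · rintro z (h | h)
    · exact z1 z h
    · exact ⟨fdo_subset_fd (fo z (by linarith [h.1]) h.2.1), by linarith [h.2.2]⟩
  · exact (isOpen_lt (continuous_re.abs) continuous_const).inter
      ((isOpen_lt continuous_const continuous_im).inter (isOpen_lt continuous_im continuous_const))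
  · rw [eφ, injective_iff_map_eq_one]
    exact fun w hw => h2 w ⟨x0, .inr hx0⟩ (by rw [hw]; rfl)
  · rw [← Matrix.range_cons_cons_empty (u := ![]), eφ, ← FreeGroup.range_lift_eq_closure] at hg
    obtain ⟨w, rfl⟩ := hg
    rw [h2 w x hx, map_one]

end Pool.Agent.Results.MP_e721cf_gt.Yes
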